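import Pool.Agent.KS6_21.SRK.Main

set_option autoImplicit false

namespace Pool.Agent.Results.MP_b7b920_al.RankIsHirschNumber

variable {G : Type} [Group G]

/-- The special rank of the subgroup `H` is at most `r`: every finitely generated subgroup of `H`
can be generated by at most `r` elements. -/
def RankLE (H : Subgroup G) (r : ℕ) : Prop :=
  ∀ K : Subgroup G, K ≤ H → K.FG → ∃ s : Finset G, s.card ≤ r ∧ Subgroup.closure (s : Set G) = K

/-- The Hirsch number (torsion-free rank) of the subgroup `H` is at most `r`: in a finite chain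
`L 0 ≤ L 1 ≤ … ≤ L m` of subgroups of `H`, each normal in the next, there are at most `r` steps
`L i ≤ L (i + 1)` for which `L (i + 1)` contains an element that has no positive power in `L i`. -/
def HirschLE (H : Subgroup G) (r : ℕ) : Prop :=
  ∀ (m : ℕ) (L : ℕ → Subgroup G), (∀ i ≤ m, L i ≤ H) →
    (∀ i < m, L i ≤ L (i + 1) ∧ ∀ x ∈ L i, ∀ g ∈ L (i + 1), g * x * g⁻¹ ∈ L i) →
    ∀ s : Finset ℕ, (∀ i ∈ s, i < m ∧ ∃ g ∈ L (i + 1), ∀ k : ℕ, 0 < k → g ^ k ∉ L i) → s.card ≤ r

/-- Let `G` be a torsion-free group, all finitely generated subgroups of which are soluble.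
(1) The special rank of `G`, and of every subgroup, is its Hirsch number.
(2) If `H ≤ H'` are subgroups and every element of `H'` has a positive power in `H`, then `H` and
`H'` have the same special rank.
(3) In particular a subgroup of finite index of `G` has the same special rank as `G`. -/
theorem result (hG : ∀ K : Subgroup G, K.FG → Group.IsSolvable K)
    (htf : ∀ g : G, IsOfFinOrder g → g = 1) :
    (∀ (H : Subgroup G) (r : ℕ), RankLE H r ↔ HirschLE H r) ∧
    (∀ H H' : Subgroup G, H ≤ H' → (∀ g ∈ H', ∃ k : ℕ, 0 < k ∧ g ^ k ∈ H) →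
      ∀ r : ℕ, RankLE H' r ↔ RankLE H r) ∧
    (∀ H : Subgroup G, H.index ≠ 0 → ∀ r : ℕ,
      (∀ K : Subgroup G, K.FG → ∃ s : Finset G, s.card ≤ r ∧ Subgroup.closure (s : Set G) = K) ↔
      (∀ K : Subgroup G, K ≤ H → K.FG →
        ∃ s : Finset G, s.card ≤ r ∧ Subgroup.closure (s : Set G) = K)) := by
  have h2 : ∀ H H' : Subgroup G, H ≤ H' → (∀ g ∈ H', ∃ k : ℕ, 0 < k ∧ g ^ k ∈ H) →
      ∀ r : ℕ, RankLE H' r ↔ RankLE H r := fun H H' hle hp r =>
    ⟨KS6_21.SRK.rank_mono hle r, fun h => KS6_21.SRK.rank_of_hirsch hG htf H' r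
      (KS6_21.SRK.hirsch_of_power hp r (KS6_21.SRK.hirsch_of_rank hG htf H r h))⟩
  refine ⟨fun H r => ⟨KS6_21.SRK.hirsch_of_rank hG htf H r,
    KS6_21.SRK.rank_of_hirsch hG htf H r⟩, h2, fun H hH r => ?_⟩
  have h := h2 H ⊤ le_top (fun g _ => KS6_21.SRK.pow_of_index hH g) r
  exact ⟨fun h3 => h.1 fun K _ hK => h3 K hK, fun h3 K hK => h.2 h3 K le_top hK⟩

end Pool.Agent.Results.MP_b7b920_al.RankIsHirschNumber
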